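import Mathlib
set_option autoImplicit false

/-!
# Definable convex valuation rings and convex subgroups: definitions
-/

open FirstOrder Set

namespace Pool.Agent.R614.Rk

universe u

/-- function symbols `0, 1, -, +, ·` -/
inductive OFun : ℕ → Type
  | zero : OFun 0
  | one : OFun 0
  | neg : OFun 1
  | add : OFun 2
  | mul : OFun 2

/-- function symbols `0, -, +` -/
inductive GFun : ℕ → Type
  | zero : GFun 0
  | neg : GFun 1
  | add : GFun 2

/-- the relation symbol `<` -/
inductive LRel : ℕ → Type
  | lt : LRel 2

/-- the language of ordered rings -/
def Lor : Language := ⟨OFun, LRel⟩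

/-- the language of ordered groups -/
def Log : Language := ⟨GFun, LRel⟩

/-- an ordered field as a structure for the language of ordered rings -/
def ringStr (K : Type u) [Field K] [LinearOrder K] : Lor.Structure K where
  funMap := fun {_} f => match f with
    | OFun.zero => fun _ => 0
    | OFun.one => fun _ => 1
    | OFun.neg => fun x => -x 0
    | OFun.add => fun x => x 0 + x 1
    | OFun.mul => fun x => x 0 * x 1
  RelMap := fun {_} r => match r with
    | LRel.lt => fun x => x 0 < x 1

/-- an ordered abelian group as a structure for the language of ordered groups -/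
def grpStr (G : Type u) [AddCommGroup G] [LinearOrder G] : Log.Structure G where
  funMap := fun {_} f => match f with
    | GFun.zero => fun _ => 0
    | GFun.neg => fun x => -x 0
    | GFun.add => fun x => x 0 + x 1
  RelMap := fun {_} r => match r with
    | LRel.lt => fun x => x 0 < x 1

/-- `S` is definable in the ordered field `K` by a formula with parameters from `K` -/
def DefK {K : Type u} [Field K] [LinearOrder K] (S : Set K) : Prop :=
  @Set.Definable₁ K univ Lor (ringStr K) S

/-- `S` is definable in the ordered abelian group `G` by a formula with parameters from `G` -/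
def DefG {G : Type u} [AddCommGroup G] [LinearOrder G] (S : Set G) : Prop :=
  @Set.Definable₁ G univ Log (grpStr G) S

/-- `v : Kˣ → G` is the natural valuation of the ordered field `K` (the finest convex valuation,
whose ring is `{a | |a| ≤ n for some n}`), with value group `G`, written additively -/
structure IsNaturalValuation {K G : Type u} [Field K] [LinearOrder K] [AddCommGroup G]
    [LinearOrder G] (v : Kˣ → G) : Prop where
  surj : Function.Surjective v
  map_mul : ∀ a b, v (a * b) = v a + v b
  le_iff : ∀ a b : Kˣ, v a ≤ v b ↔ ∃ n : ℕ, |(b : K)| ≤ n * |(a : K)|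

/-- `O` is a convex valuation ring of `K`, different from `K` -/
structure IsConvexValuationRing {K : Type u} [Field K] [LinearOrder K] (O : Subring K) :
    Prop where
  val : ∀ x, x ∈ O ∨ x⁻¹ ∈ O
  convex : (O : Set K).OrdConnected
  ne_top : O ≠ ⊤

/-- the image `v(Oˣ)` of the units of `O` -/
def unitValues {K G : Type u} [Field K] (v : Kˣ → G) (O : Subring K) : Set G :=
  {g | ∃ a : Kˣ, (a : K) ∈ O ∧ ((a⁻¹ : Kˣ) : K) ∈ O ∧ v a = g}

end Pool.Agent.R614.Rk
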