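import Mathlib
set_option autoImplicit false

/-!
# Generic extensions have no new points on `y ^ 2 = 1 + x ^ 4`
-/

open Polynomial IntermediateField

namespace Pool.Agent.R614.Rk

universe u v w

/-- no new solutions of `y ^ 2 = 1 + x ^ 4` in a simple transcendental extension -/
theorem simple_ext {F : Type u} {M : Type v} [Field F] [Field M] [Algebra F M] [CharZero M]
    (hM : ∀ a : M, 1 + a ^ 4 ≠ 0) (b : M) (hb : Transcendental F b) {x y : M}
    (hx : x ∈ F⟮b⟯) (hy : y ∈ F⟮b⟯) (hxy : y ^ 2 = 1 + x ^ 4) :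
    x ∈ (algebraMap F M).range ∧ y ∈ (algebraMap F M).range := by
  have hchar : CharZero F := (algebraMap F M).charZero_iff (algebraMap F M).injective |>.2
    inferInstance
  have hinj : Function.Injective (aeval (R := F) b) := transcendental_iff_injective.1 hb
  have hne : ∀ p : F[X], p ≠ 0 → aeval b p ≠ 0 := fun p hp h => hp (hinj (by rw [h, map_zero]))
  have key : ∀ {z : M}, z ∈ F⟮b⟯ → ∃ p q : F[X], q ≠ 0 ∧ z = aeval b p / aeval b q ∧
      IsCoprime p q := by
    intro z hz
    obtain ⟨r, s, hrs⟩ := (IntermediateField.mem_adjoin_simple_iff F z).1 hz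
    by_cases hs : s = 0
    · refine ⟨0, 1, one_ne_zero, ?_, isCoprime_zero_left.2 isUnit_one⟩
      rw [hrs, hs]; simp
    · classical
      set g := EuclideanDomain.gcd r s with hg
      obtain ⟨r', hr'⟩ : g ∣ r := EuclideanDomain.gcd_dvd_left r s
      obtain ⟨s', hs'⟩ : g ∣ s := EuclideanDomain.gcd_dvd_right r s
      have hg0 : g ≠ 0 := by intro h; rw [h, zero_mul] at hs'; exact hs hs'
      have hs0 : s' ≠ 0 := by rintro rfl; rw [mul_zero] at hs'; exact hs hs'
      refine ⟨r', s', hs0, ?_, ?_⟩
      · rw [hrs, hr', hs', map_mul, map_mul]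
        exact mul_div_mul_left _ _ (hne g hg0)
      · have h1 := EuclideanDomain.gcd_eq_gcd_ab r s
        rw [← hg] at h1
        refine ⟨EuclideanDomain.gcdA r s, EuclideanDomain.gcdB r s, ?_⟩
        have h2 : g * (EuclideanDomain.gcdA r s * r' + EuclideanDomain.gcdB r s * s') = g * 1 := by
          rw [mul_one]
          conv_rhs => rw [h1]
          calc _ = (g * r') * EuclideanDomain.gcdA r s + (g * s') * EuclideanDomain.gcdB r s := by
                ring
            _ = _ := by rw [← hr', ← hs']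
        exact mul_left_cancel₀ hg0 h2
  obtain ⟨p, q, hq, hxpq, hcop⟩ := key hx
  obtain ⟨r, s, hs, hyrs, -⟩ := key hy
  have hqb := hne q hq
  have hsb := hne s hs
  -- the polynomial identity
  have h1 : (r * q ^ 2) ^ 2 = s ^ 2 * (q ^ 4 + p ^ 4) := by
    apply hinj
    simp only [map_mul, map_pow, map_add]
    rw [hxpq, hyrs] at hxy
    field_simp at hxy
    linear_combination hxy
  have h2 : s ∣ r * q ^ 2 := by
    rw [← IsIntegrallyClosed.pow_dvd_pow_iff (two_ne_zero)]
    rw [h1]; exact Dvd.intro _ rfl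
  obtain ⟨k, hk⟩ := h2
  have h3 : k ^ 2 = q ^ 4 + p ^ 4 := by
    have : s ^ 2 * k ^ 2 = s ^ 2 * (q ^ 4 + p ^ 4) := by rw [← h1, hk]; ring
    exact mul_left_cancel₀ (pow_ne_zero 2 hs) this
  have hyk : y = aeval b k / aeval b q ^ 2 := by
    rw [hyrs, div_eq_div_iff hsb (pow_ne_zero 2 hqb), ← map_pow, ← map_mul, ← map_mul, hk]
    ring_nf
  by_cases hp : p = 0
  · have hx0 : x = 0 := by rw [hxpq, hp, map_zero, zero_div]
    refine ⟨⟨0, by rw [map_zero, hx0]⟩, ?_⟩
    rw [hx0] at hxy
    have : (y - 1) * (y + 1) = 0 := by linear_combination hxy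
    rcases mul_eq_zero.1 this with h | h
    · exact ⟨1, by rw [map_one]; linear_combination -h⟩
    · exact ⟨-1, by rw [map_neg, map_one]; linear_combination -h⟩
  · have hk0 : k ≠ 0 := by
      rintro rfl
      have : y = 0 := by rw [hyk]; simp
      rw [this] at hxy
      exact hM x (by rw [← hxy]; simp)
    have h4 : C (1:F) * p ^ 4 + C (1:F) * q ^ 4 + C (-1:F) * k ^ 2 = 0 := by
      rw [h3]; simp only [map_one, one_mul, map_neg]; ring
    obtain ⟨hp0, hq0, hk0'⟩ := Polynomial.flt_catalan (p := 4) (q := 4) (r := 2) (by norm_num)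
      (by norm_num) (by norm_num) (by norm_num) (by norm_num) (by norm_num) (by norm_num) hp hq hk0
      hcop one_ne_zero one_ne_zero (neg_ne_zero.2 one_ne_zero) h4
    rw [natDegree_eq_zero] at hp0 hq0 hk0'
    obtain ⟨a, rfl⟩ := hp0
    obtain ⟨c, rfl⟩ := hq0
    obtain ⟨d, rfl⟩ := hk0'
    simp only [aeval_C] at hxpq hyk
    exact ⟨⟨a / c, by rw [map_div₀, hxpq]⟩, ⟨d / c ^ 2, by rw [map_div₀, map_pow, hyk]⟩⟩

/-- transcendence by means of derivations -/
theorem transcendental_of_deriv {L : Type u} {M : Type v} [Field L] [Field M] [Algebra L M]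
    [CharZero M] (b : M) (h : ∀ T : Finset L, ∃ D : M → M, (∀ x y, D (x + y) = D x + D y) ∧
      (∀ x y, D (x * y) = x * D y + y * D x) ∧ (∀ c ∈ T, D (algebraMap L M c) = 0) ∧ D b ≠ 0) :
    Transcendental L b := by
  intro halg
  classical
  have hchar : CharZero L := (algebraMap L M).charZero_iff (algebraMap L M).injective |>.2
    inferInstance
  set p := minpoly L b with hp
  have hint : IsIntegral L b := halg.isIntegral
  obtain ⟨D, hadd, hmul, hT, hDb⟩ := h (Finset.image p.coeff (Finset.range (p.natDegree + 1)))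
  have h0 : D 0 = 0 := by
    have := hadd 0 0
    rw [add_zero] at this
    exact left_eq_add.1 this
  have hsum : ∀ (s : Finset ℕ) (f : ℕ → M), D (∑ i ∈ s, f i) = ∑ i ∈ s, D (f i) := by
    intro s f
    induction s using Finset.induction_on with
    | empty => simp [h0]
    | insert a s ha ih => rw [Finset.sum_insert ha, Finset.sum_insert ha, hadd, ih]
  have hpow : ∀ n : ℕ, D (b ^ n) = n * b ^ (n - 1) * D b := by
    intro n
    induction n with
    | zero =>
      have := hmul 1 1
      rw [mul_one, one_mul] at this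
      have h1 : D 1 = 0 := left_eq_add.1 this
      simp [h1]
    | succ n ih =>
      rw [pow_succ, hmul, ih]
      rcases n with _ | n
      · simp
      · simp only [Nat.add_sub_cancel, Nat.cast_succ]
        ring
  have h1 : aeval b p = ∑ i ∈ Finset.range (p.natDegree + 1), algebraMap L M (p.coeff i) * b ^ i := by
    rw [aeval_eq_sum_range]
    simp only [Algebra.smul_def]
  have h2 : aeval b (derivative p) * D b = 0 := by
    have h3 : D (aeval b p) = 0 := by rw [hp, minpoly.aeval, h0]
    rw [h1, hsum] at h3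
    have h4 : aeval b (derivative p) = ∑ i ∈ Finset.range (p.natDegree + 1),
        algebraMap L M (p.coeff i) * (i * b ^ (i - 1)) := by
      rw [derivative_apply, sum_over_range _ (fun n => by simp), map_sum]
      refine Finset.sum_congr rfl fun i _ => ?_
      rw [map_mul, aeval_C, map_pow, aeval_X, map_mul, map_natCast]
      ring
    rw [h4, Finset.sum_mul, ← h3]
    refine Finset.sum_congr rfl fun i hi => ?_
    rw [hmul, hT _ (Finset.mem_image_of_mem _ hi), hpow]
    ring
  have h3 : aeval b (derivative p) = 0 := (mul_eq_zero.1 h2).resolve_right hDb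
  have h4 : derivative p = 0 := by
    by_contra hne
    have h5 := minpoly.degree_le_of_ne_zero L b hne h3
    have h6 : (derivative p).degree < p.degree := degree_derivative_lt (minpoly.ne_zero hint)
    exact absurd h5 (not_le.2 h6)
  have h5 := derivative_eq_zero.1 h4
  exact (minpoly.natDegree_pos hint).ne' h5

/-- generic extensions have no new points -/
theorem gen_points {F : Type u} {M : Type v} [Field F] [Field M] [Algebra F M] [CharZero M]
    (hM : ∀ a : M, 1 + a ^ 4 ≠ 0) {Λ : Type w} (b : Λ → M) (D : Λ → ℕ → M → M)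
    (hadd : ∀ l n x y, D l n (x + y) = D l n x + D l n y)
    (hmul : ∀ l n x y, D l n (x * y) = x * D l n y + y * D l n x)
    (hF : ∀ l (c : F), ∃ N, ∀ n ≥ N, D l n (algebraMap F M c) = 0)
    (hne : ∀ l m n, m ≠ l → D l n (b m) = 0) (hb : ∀ l n, D l n (b l) ≠ 0) {x y : M}
    (hx : x ∈ adjoin F (Set.range b)) (hy : y ∈ adjoin F (Set.range b)) (hxy : y ^ 2 = 1 + x ^ 4) :
    x ∈ (algebraMap F M).range := by
  classical
  have h1 : ∀ l n, D l n 1 = 0 := by
    intro l n
    have := hmul l n 1 1
    rw [mul_one, one_mul] at this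
    exact left_eq_add.1 this
  have hinv : ∀ l n c, D l n c = 0 → D l n c⁻¹ = 0 := by
    intro l n c hc
    by_cases h0 : c = 0
    · rw [h0, inv_zero]; rw [h0] at hc; exact hc
    · have := hmul l n c c⁻¹
      rw [mul_inv_cancel₀ h0, h1, hc, mul_zero, add_zero] at this
      exact (mul_eq_zero.1 this.symm).resolve_left h0
  let E : Λ → IntermediateField F M := fun l =>
    { carrier := {c | ∃ N, ∀ n ≥ N, D l n c = 0}
      mul_mem' := by
        rintro c d ⟨N, hN⟩ ⟨N', hN'⟩
        refine ⟨max N N', fun n hn => ?_⟩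
        rw [hmul, hN n (le_trans (le_max_left _ _) hn), hN' n (le_trans (le_max_right _ _) hn)]
        simp
      add_mem' := by
        rintro c d ⟨N, hN⟩ ⟨N', hN'⟩
        refine ⟨max N N', fun n hn => ?_⟩
        rw [hadd, hN n (le_trans (le_max_left _ _) hn), hN' n (le_trans (le_max_right _ _) hn)]
        simp
      algebraMap_mem' := fun c => hF l c
      inv_mem' := by
        rintro c ⟨N, hN⟩
        exact ⟨N, fun n hn => hinv l n c (hN n hn)⟩ }
  have htr : ∀ (l : Λ) (T : Finset M), (∀ t ∈ T, t ∈ Set.range b ∧ t ≠ b l) →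
      Transcendental (adjoin F (T : Set M)) (b l) := by
    intro l T hT
    have hle : adjoin F (T : Set M) ≤ E l := by
      rw [adjoin_le_iff]
      intro t ht
      obtain ⟨⟨m, rfl⟩, htl⟩ := hT t ht
      exact ⟨0, fun n _ => hne l m n (by rintro rfl; exact htl rfl)⟩
    apply transcendental_of_deriv
    intro S
    have : ∃ N, ∀ c ∈ S, ∀ n ≥ N, D l n (algebraMap (adjoin F (T : Set M)) M c) = 0 := by
      induction S using Finset.induction_on with
      | empty => exact ⟨0, by simp⟩
      | insert a S ha ih =>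
        obtain ⟨N, hN⟩ := ih
        obtain ⟨N', hN'⟩ : ∃ N, ∀ n ≥ N, D l n (a : M) = 0 := hle a.2
        refine ⟨max N N', fun c hc n hn => ?_⟩
        rcases Finset.mem_insert.1 hc with rfl | hc
        · exact hN' n (le_trans (le_max_right _ _) hn)
        · exact hN c hc n (le_trans (le_max_left _ _) hn)
    obtain ⟨N, hN⟩ := this
    exact ⟨D l N, hadd l N, hmul l N, fun c hc => hN c hc N le_rfl, hb l N⟩
  have key : ∀ T : Finset M, (T : Set M) ⊆ Set.range b → ∀ x y : M, x ∈ adjoin F (T : Set M) →
      y ∈ adjoin F (T : Set M) → y ^ 2 = 1 + x ^ 4 → x ∈ (algebraMap F M).range := by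
    intro T
    induction T using Finset.induction_on with
    | empty =>
      intro _ x y hx _ _
      rw [Finset.coe_empty, adjoin_empty, mem_bot] at hx
      exact hx
    | insert t T ht ih =>
      intro hT x y hx hy hxy
      obtain ⟨l, rfl⟩ : t ∈ Set.range b := hT (by simp)
      have hT' : (T : Set M) ⊆ Set.range b := fun s hs => hT (by simp [Finset.mem_coe.1 hs])
      have htl := htr l T fun t ht' => ⟨hT' ht', by rintro rfl; exact ht ht'⟩
      have heq : adjoin F ((insert (b l) T : Finset M) : Set M) =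
          (adjoin (adjoin F (T : Set M)) {b l}).restrictScalars F := by
        rw [adjoin_adjoin_left, Finset.coe_insert, Set.union_singleton]
      rw [heq, mem_restrictScalars] at hx hy
      obtain ⟨⟨x', rfl⟩, ⟨y', rfl⟩⟩ := simple_ext hM (b l) htl hx hy hxy
      exact ih hT' _ _ x'.2 y'.2 hxy
  obtain ⟨T₁, hT₁, hx'⟩ := exists_finset_of_mem_adjoin hx
  obtain ⟨T₂, hT₂, hy'⟩ := exists_finset_of_mem_adjoin hy
  refine key (T₁ ∪ T₂) ?_ x y ?_ ?_ hxy
  · rw [Finset.coe_union]; exact Set.union_subset hT₁ hT₂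
  · exact adjoin.mono _ _ _ (by rw [Finset.coe_union]; exact Set.subset_union_left) hx'
  · exact adjoin.mono _ _ _ (by rw [Finset.coe_union]; exact Set.subset_union_right) hy'

end Pool.Agent.R614.Rk
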