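import Mathlib
set_option autoImplicit false

/-!
# Square roots of positive Hahn series
-/

open HahnSeries

namespace Pool.Agent.R614.Rk

universe u

theorem exists_sqrt {Γ : Type u} [AddCommGroup Γ] [LinearOrder Γ] [IsOrderedAddMonoid Γ]
    (hdiv : ∀ g : Γ, ∃ h, g = h + h) (z : HahnSeries Γ ℝ) (hz : 0 < z.leadingCoeff) :
    ∃ y : HahnSeries Γ ℝ, y ^ 2 = z := by
  have hz0 : z ≠ 0 := leadingCoeff_ne_zero.1 hz.ne'
  obtain ⟨h, hh⟩ := hdiv z.order
  set c := z.leadingCoeff with hc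
  set w : HahnSeries Γ ℝ := single (-z.order) c⁻¹ * z with hw
  have hsc : single (-z.order) c⁻¹ ≠ 0 := single_ne_zero (inv_ne_zero hz.ne')
  have hw0 : w ≠ 0 := mul_ne_zero hsc hz0
  have h1 : 0 < (w - 1).orderTop := by
    rw [orderTop_self_sub_one_pos_iff]
    constructor
    · rw [← order_eq_orderTop_of_ne_zero hw0, hw, order_mul hsc hz0,
        order_single (inv_ne_zero hz.ne'), neg_add_cancel]
      rfl
    · rw [hw, leadingCoeff_mul, leadingCoeff_of_single, ← hc, inv_mul_cancel₀ hz.ne']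
  set s := PowerSeries.heval (w - 1) (PowerSeries.binomialSeries ℝ (1/2 : ℚ)) with hs
  have hs2 : s * s = w := by
    rw [hs, ← PowerSeries.heval_mul, ← PowerSeries.binomialSeries_add]
    have : (1/2 : ℚ) + 1/2 = ((1 : ℕ) : ℚ) := by norm_num
    rw [this, PowerSeries.binomialSeries_nat, pow_one, map_add, map_one,
      PowerSeries.heval_X _ h1]
    ring
  refine ⟨single h (Real.sqrt c) * s, ?_⟩
  have : (single h (Real.sqrt c) * s) ^ 2 = (single h (Real.sqrt c) * single h (Real.sqrt c)) *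
      (s * s) := by ring
  rw [this, hs2, single_mul_single, Real.mul_self_sqrt hz.le, ← hh, hw, ← mul_assoc,
    single_mul_single, add_neg_cancel, mul_inv_cancel₀ hz.ne']
  exact one_mul z

/-- if `x` is a Hahn series over a divisible group, then `1 + x ^ 4` is a square -/
theorem exists_sqrt_one_add {Γ : Type u} [AddCommGroup Γ] [LinearOrder Γ] [IsOrderedAddMonoid Γ]
    (hdiv : ∀ g : Γ, ∃ h, g = h + h) (x : HahnSeries Γ ℝ) :
    ∃ y : HahnSeries Γ ℝ, y ^ 2 = 1 + x ^ 4 := by
  refine exists_sqrt hdiv _ ?_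
  have h1 : (0 : Lex (HahnSeries Γ ℝ)) < 1 + (toLex x) ^ 4 := by positivity
  exact leadingCoeff_pos_iff.2 h1

end Pool.Agent.R614.Rk
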