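import Pool.Agent.R614.Rk.Gen
import Pool.Agent.R614.Rk.Sqrt
set_option autoImplicit false

/-!
# The field
-/

open HahnSeries Filter Topology

namespace Pool.Agent.R614.Rk

universe u

variable (Λ : Type u) [LinearOrder Λ]

/-- indices -/
abbrev Ix : Type u := Λ ×ₗ ℚ

/-- the value group -/
abbrev Gp : Type u := Lex (Ix Λ →₀ ℚ)

/-- the ambient field -/
abbrev HF : Type u := Lex (HahnSeries (Gp Λ) ℝ)

variable {Λ}

theorem gp_div (g : Gp Λ) : ∃ h, g = h + h := by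
  refine ⟨toLex ((1/2 : ℚ) • ofLex g), ?_⟩
  apply ofLex.injective
  ext i
  simp only [ofLex_add, ofLex_toLex, Finsupp.coe_add, Pi.add_apply, Finsupp.coe_smul,
    Pi.smul_apply, smul_eq_mul]
  ring

/-- the basis element of the group -/
noncomputable def e (i : Ix Λ) : Gp Λ := toLex (Finsupp.single i 1)

theorem e_apply (i j : Ix Λ) : (ofLex (e i)) j = if i = j then 1 else 0 := by
  simp only [e, ofLex_toLex, Finsupp.single_apply]

theorem nsmul_apply (n : ℕ) (g : Gp Λ) (i : Ix Λ) : (ofLex (n • g)) i = n * (ofLex g) i := by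
  induction n with
  | zero => rw [zero_nsmul, Nat.cast_zero, zero_mul]; rfl
  | succ n ih => rw [succ_nsmul, ofLex_add, Finsupp.add_apply, ih]; push_cast; ring

theorem nsmul_e_lt {i j : Ix Λ} (h : i < j) (n : ℕ) : n • e j < e i := by
  rw [Finsupp.Lex.lt_iff]
  refine ⟨i, fun k hk => ?_, ?_⟩
  · rw [nsmul_apply, e_apply, e_apply, if_neg (hk.trans h).ne', if_neg hk.ne', mul_zero]
  · rw [nsmul_apply, e_apply, e_apply, if_neg h.ne', if_pos rfl, mul_zero]
    exact one_pos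

theorem e_lt {i j : Ix Λ} (h : i < j) : e j < e i := by
  simpa using nsmul_e_lt h 1

theorem e_pos (i : Ix Λ) : 0 < e i := by
  rw [Finsupp.Lex.lt_iff]
  refine ⟨i, fun k hk => ?_, ?_⟩
  · rw [e_apply, if_neg hk.ne']; rfl
  · rw [e_apply, if_pos rfl]; exact one_pos

/-- the derivations -/
noncomputable def Dv (i : Ix Λ) (x : HF Λ) : HF Λ :=
  toLex ⟨fun g => ((ofLex g) i : ℝ) * (ofLex x).coeff g,
    (ofLex x).isPWO_support.mono fun g hg => by
      simp only [Function.mem_support] at hg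
      rw [HahnSeries.mem_support]
      exact right_ne_zero_of_mul hg⟩

theorem Dv_coeff (i : Ix Λ) (x : HF Λ) (g : Gp Λ) :
    (ofLex (Dv i x)).coeff g = ((ofLex g) i : ℝ) * (ofLex x).coeff g := rfl

theorem Dv_add (i : Ix Λ) (x y : HF Λ) : Dv i (x + y) = Dv i x + Dv i y := by
  apply ofLex.injective
  ext g
  rw [ofLex_add, coeff_add, Dv_coeff, Dv_coeff, Dv_coeff, ofLex_add, coeff_add]
  ring

theorem Dv_mul (i : Ix Λ) (x y : HF Λ) : Dv i (x * y) = x * Dv i y + y * Dv i x := by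
  apply ofLex.injective
  ext g
  rw [ofLex_add, coeff_add, mul_comm y]
  rw [Dv_coeff]
  show ((ofLex g) i : ℝ) * ((ofLex x) * (ofLex y)).coeff g =
    ((ofLex x) * (ofLex (Dv i y))).coeff g + ((ofLex (Dv i x)) * (ofLex y)).coeff g
  have h1 : (ofLex (Dv i y)).support ⊆ (ofLex y).support := fun g hg => by
    rw [HahnSeries.mem_support] at hg ⊢
    rw [Dv_coeff] at hg
    exact right_ne_zero_of_mul hg
  have h2 : (ofLex (Dv i x)).support ⊆ (ofLex x).support := fun g hg => by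
    rw [HahnSeries.mem_support] at hg ⊢
    rw [Dv_coeff] at hg
    exact right_ne_zero_of_mul hg
  rw [coeff_mul_right' (ofLex y).isPWO_support h1, coeff_mul_left' (ofLex x).isPWO_support h2,
    coeff_mul, Finset.mul_sum, ← Finset.sum_add_distrib]
  refine Finset.sum_congr rfl fun ab hab => ?_
  rw [Dv_coeff, Dv_coeff]
  have h3 : ab.1 + ab.2 = g := (Finset.mem_antidiagonal.1 hab).2.2
  have h4 : (ofLex g) i = (ofLex ab.1) i + (ofLex ab.2) i := by
    rw [← h3, ofLex_add, Finsupp.add_apply]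
  rw [h4]; push_cast; ring

theorem Dv_one (i : Ix Λ) : Dv i (1 : HF Λ) = 0 := by
  have := Dv_mul i (1 : HF Λ) 1
  rw [mul_one, one_mul] at this
  exact left_eq_add.1 this

theorem Dv_zero (i : Ix Λ) : Dv i (0 : HF Λ) = 0 := by
  have := Dv_add i (0 : HF Λ) 0
  rw [add_zero] at this
  exact left_eq_add.1 this

theorem Dv_inv (i : Ix Λ) (x : HF Λ) (h : Dv i x = 0) : Dv i x⁻¹ = 0 := by
  by_cases h0 : x = 0
  · rw [h0, inv_zero, Dv_zero]
  · have := Dv_mul i x x⁻¹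
    rw [mul_inv_cancel₀ h0, Dv_one, h, mul_zero, add_zero] at this
    exact (mul_eq_zero.1 this.symm).resolve_left h0

theorem Dv_neg (i : Ix Λ) (x : HF Λ) (h : Dv i x = 0) : Dv i (-x) = 0 := by
  have := Dv_add i x (-x)
  rw [add_neg_cancel, Dv_zero, h, zero_add] at this
  exact this.symm

theorem Dv_sqrt (i : Ix Λ) (x y : HF Λ) (h : y ^ 2 = x) (hx : Dv i x = 0) : Dv i y = 0 := by
  by_cases h0 : y = 0
  · rw [h0, Dv_zero]
  · have := Dv_mul i y y
    rw [← pow_two, h, hx, ← two_mul] at this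
    have h2 : (2:HF Λ) ≠ 0 := two_ne_zero
    exact ((mul_eq_zero.1 this.symm).resolve_left h2 |> mul_eq_zero.1).resolve_left h0

variable (Λ) in
/-- the field of series with finite dimensional support -/
noncomputable def K' : Subfield (HF Λ) where
  carrier := {x | ∃ F : Finset (Ix Λ), ∀ i, i ∉ F → Dv i x = 0}
  mul_mem' := by
    classical
    rintro x y ⟨F, hF⟩ ⟨F', hF'⟩
    refine ⟨F ∪ F', fun i hi => ?_⟩
    rw [Finset.notMem_union] at hi
    rw [Dv_mul, hF i hi.1, hF' i hi.2]; simp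
  one_mem' := ⟨∅, fun i _ => Dv_one i⟩
  add_mem' := by
    classical
    rintro x y ⟨F, hF⟩ ⟨F', hF'⟩
    refine ⟨F ∪ F', fun i hi => ?_⟩
    rw [Finset.notMem_union] at hi
    rw [Dv_add, hF i hi.1, hF' i hi.2]; simp
  zero_mem' := ⟨∅, fun i _ => Dv_zero i⟩
  neg_mem' := by
    rintro x ⟨F, hF⟩
    exact ⟨F, fun i hi => Dv_neg i x (hF i hi)⟩
  inv_mem' := by
    rintro x ⟨F, hF⟩
    exact ⟨F, fun i hi => Dv_inv i x (hF i hi)⟩

theorem mem_K' (x : HF Λ) : x ∈ K' Λ ↔ ∃ F : Finset (Ix Λ), ∀ i, i ∉ F → Dv i x = 0 := Iff.rfl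

theorem K'_sqrt {x : HF Λ} (hx : x ∈ K' Λ) : ∃ y ∈ K' Λ, y ^ 2 = 1 + x ^ 4 := by
  obtain ⟨y, hy⟩ := exists_sqrt_one_add gp_div (ofLex x)
  refine ⟨toLex y, ?_, hy⟩
  have h1 : 1 + x ^ 4 ∈ K' Λ := add_mem (one_mem _) (pow_mem hx 4)
  obtain ⟨F, hF⟩ := h1
  exact ⟨F, fun i hi => Dv_sqrt i _ _ hy (hF i hi)⟩

/-- monomials -/
noncomputable def mon (g : Gp Λ) : HF Λ := toLex (single g 1)

theorem mon_mem (g : Gp Λ) : mon g ∈ K' Λ := by
  refine ⟨(ofLex g).support, fun i hi => ?_⟩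
  apply ofLex.injective
  ext h
  rw [Dv_coeff]
  show _ * (single g (1:ℝ)).coeff h = 0
  by_cases hg : h = g
  · subst hg
    rw [Finsupp.notMem_support_iff.1 hi]; simp
  · rw [coeff_single_of_ne hg, mul_zero]

theorem exists_seq : ∃ r : ℕ → ℚ, StrictAnti r ∧ (∀ n, Real.sqrt 2 < r n) ∧
    Tendsto (fun n => (r n : ℝ)) atTop (𝓝 (Real.sqrt 2)) :=
  Real.exists_seq_rat_strictAnti_tendsto _

/-- a decreasing sequence of rationals with limit `√2` -/
noncomputable def r : ℕ → ℚ := exists_seq.choose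

theorem r_anti : StrictAnti r := exists_seq.choose_spec.1
theorem r_gt (n : ℕ) : Real.sqrt 2 < r n := exists_seq.choose_spec.2.1 n
theorem r_lim : Tendsto (fun n => (r n : ℝ)) atTop (𝓝 (Real.sqrt 2)) := exists_seq.choose_spec.2.2

/-- the sequence of indices -/
noncomputable def ix (l : Λ) (n : ℕ) : Ix Λ := toLex (l, r n)

theorem ix_lt (l : Λ) {m n : ℕ} (h : m < n) : ix l n < ix l m := by
  rw [ix, ix, Prod.Lex.toLex_lt_toLex]
  exact Or.inr ⟨rfl, r_anti h⟩

theorem ix_inj (l m : Λ) (n k : ℕ) (h : ix l n = ix m k) : l = m ∧ n = k := by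
  have h1 := toLex.injective h
  rw [Prod.mk.injEq] at h1
  exact ⟨h1.1, r_anti.injective h1.2⟩

theorem ix_strictAnti (l : Λ) : StrictAnti (ix l) := fun _ _ h => ix_lt l h

theorem e_ix_mono (l : Λ) : StrictMono (fun n => e (ix l n)) := fun _ _ h => e_lt (ix_lt l h)

open Classical in
/-- the generic elements -/
noncomputable def bb (l : Λ) : HF Λ :=
  toLex ⟨fun g => if ∃ n, g = e (ix l n) then 1 else 0, by
    have h1 : (Set.range fun n => e (ix l n)).IsPWO := by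
      rw [← Set.image_univ]
      exact (Set.isPWO_of_wellQuasiOrderedLE _).image_of_monotone (e_ix_mono l).monotone
    refine h1.mono fun g hg => ?_
    simp only [Function.mem_support, ne_eq, ite_eq_right_iff, not_forall] at hg
    obtain ⟨⟨n, hn⟩, -⟩ := hg
    exact ⟨n, hn.symm⟩⟩

open Classical in
theorem bb_coeff (l : Λ) (g : Gp Λ) :
    (ofLex (bb l)).coeff g = if ∃ n, g = e (ix l n) then 1 else 0 := rfl

theorem Dv_bb_self (l : Λ) (n : ℕ) : Dv (ix l n) (bb l) ≠ 0 := by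
  intro h
  have h1 : (ofLex (Dv (ix l n) (bb l))).coeff (e (ix l n)) = 0 := by rw [h]; rfl
  rw [Dv_coeff, bb_coeff, if_pos ⟨n, rfl⟩, e_apply, if_pos rfl] at h1
  norm_num at h1

theorem Dv_bb_ne (l m : Λ) (n : ℕ) (h : m ≠ l) : Dv (ix l n) (bb m) = 0 := by
  apply ofLex.injective
  ext g
  rw [Dv_coeff, bb_coeff]
  split_ifs with h1
  · obtain ⟨k, rfl⟩ := h1
    rw [e_apply, if_neg]
    · simp
    · intro h2; exact h (ix_inj _ _ _ _ h2).1
  · simp

theorem Dv_K' (l : Λ) {c : HF Λ} (hc : c ∈ K' Λ) : ∃ N, ∀ n ≥ N, Dv (ix l n) c = 0 := by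
  obtain ⟨F, hF⟩ := hc
  have h1 : {n | ix l n ∈ F}.Finite :=
    Set.Finite.preimage ((ix_strictAnti l).injective.injOn) F.finite_toSet
  obtain ⟨N, hN⟩ := h1.bddAbove
  refine ⟨N + 1, fun n hn => hF _ fun h => ?_⟩
  have : n ≤ N := hN h
  omega

variable (Λ) in
/-- the field -/
noncomputable def KK : Subfield (HF Λ) :=
  (IntermediateField.adjoin (K' Λ) (Set.range (bb (Λ := Λ)))).toSubfield

theorem K'_le : K' Λ ≤ KK Λ := fun x hx =>
  (IntermediateField.adjoin (K' Λ) (Set.range (bb (Λ := Λ)))).algebraMap_mem ⟨x, hx⟩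

theorem bb_mem (l : Λ) : bb l ∈ KK Λ :=
  IntermediateField.subset_adjoin (K' Λ) _ ⟨l, rfl⟩

/-- the definition of `K'` in `KK` -/
theorem K'_def (x : HF Λ) (hx : x ∈ KK Λ) : x ∈ K' Λ ↔ ∃ y ∈ KK Λ, y ^ 2 = 1 + x ^ 4 := by
  constructor
  · intro h
    obtain ⟨y, hy, h1⟩ := K'_sqrt h
    exact ⟨y, K'_le hy, h1⟩
  · rintro ⟨y, hy, h1⟩
    have h2 : ∀ a : HF Λ, 1 + a ^ 4 ≠ 0 := fun a => by positivity
    have := gen_points (F := K' Λ) h2 bb (fun l n => Dv (ix l n)) (fun l n => Dv_add _)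
      (fun l n => Dv_mul _) (fun l c => Dv_K' l c.2) (fun l m n h => Dv_bb_ne l m n h)
      (fun l n => Dv_bb_self l n) hx hy h1
    obtain ⟨c, rfl⟩ := this
    exact c.2

end Pool.Agent.R614.Rk
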