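import Pool.Agent.R614.Rk.Val
set_option autoImplicit false

/-!
# The convex subgroups are not definable
-/

open HahnSeries Filter Topology FirstOrder FirstOrder.Language Set

namespace Pool.Agent.R614.Rk

universe u

/-- an automorphism of `ℚ` which moves the points between `a` and `b` down -/
noncomputable def shiftFun (a b q : ℚ) : ℚ := min q (max ((q + a) / 2) (2 * q - b))

/-- its inverse -/
noncomputable def shiftInv (a b q : ℚ) : ℚ := max q (min (2 * q - a) ((q + b) / 2))

theorem shiftFun_mono (a b : ℚ) : StrictMono (shiftFun a b) := by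
  intro x y h
  exact min_lt_min h (max_lt_max (by linarith) (by linarith))

theorem shiftFun_inv {a b : ℚ} (hab : a < b) (y : ℚ) : shiftFun a b (shiftInv a b y) = y := by
  unfold shiftFun shiftInv
  rcases le_or_gt y a with h1 | h1
  · have h2 : min (2 * y - a) ((y + b) / 2) ≤ y := (min_le_left _ _).trans (by linarith)
    rw [max_eq_left h2, min_eq_left]
    exact le_max_of_le_left (by linarith)
  · rcases le_or_gt b y with h2 | h2
    · have h3 : min (2 * y - a) ((y + b) / 2) ≤ y := (min_le_right _ _).trans (by linarith)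
      rw [max_eq_left h3, min_eq_left]
      exact le_max_of_le_right (by linarith)
    · have h3 : y < min (2 * y - a) ((y + b) / 2) := lt_min (by linarith) (by linarith)
      rw [max_eq_right h3.le]
      rcases le_total (2 * y - a) ((y + b) / 2) with h4 | h4
      · rw [min_eq_left h4] at h3 ⊢
        have h5 : max ((2 * y - a + a) / 2) (2 * (2 * y - a) - b) = y := by
          rw [max_eq_left (by linarith)]; ring
        rw [h5, min_eq_right h3.le]
      · rw [min_eq_right h4] at h3 ⊢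
        have h5 : max (((y + b) / 2 + a) / 2) (2 * ((y + b) / 2) - b) = y := by
          rw [max_eq_right (by linarith)]; ring
        rw [h5, min_eq_right h3.le]

/-- the order isomorphism -/
noncomputable def shift {a b : ℚ} (hab : a < b) : ℚ ≃o ℚ :=
  StrictMono.orderIsoOfRightInverse (shiftFun a b) (shiftFun_mono a b) (shiftInv a b)
    (shiftFun_inv hab)

theorem shift_apply {a b : ℚ} (hab : a < b) (q : ℚ) : shift hab q = shiftFun a b q := rfl

theorem shift_fix {a b : ℚ} (hab : a < b) {q : ℚ} (hq : q ≤ a ∨ b ≤ q) : shift hab q = q := by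
  rw [shift_apply, shiftFun]
  rcases hq with h | h
  · exact min_eq_left (le_max_of_le_left (by linarith))
  · exact min_eq_left (le_max_of_le_right (by linarith))

variable {Λ : Type u} [LinearOrder Λ]

open Classical in
/-- the induced automorphism of the index set -/
noncomputable def ixIso (l : Λ) (g : ℚ ≃o ℚ) : Ix Λ ≃o Ix Λ where
  toFun x := toLex ((ofLex x).1, if (ofLex x).1 = l then g (ofLex x).2 else (ofLex x).2)
  invFun x := toLex ((ofLex x).1, if (ofLex x).1 = l then g.symm (ofLex x).2 else (ofLex x).2)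
  left_inv x := by
    apply ofLex.injective
    by_cases h : (ofLex x).1 = l
    · simp [h, Prod.ext_iff]
    · simp [h]
  right_inv x := by
    apply ofLex.injective
    by_cases h : (ofLex x).1 = l
    · simp [h, Prod.ext_iff]
    · simp [h]
  map_rel_iff' := by
    intro x y
    simp only [Equiv.coe_fn_mk]
    rw [Prod.Lex.le_iff, Prod.Lex.le_iff]
    simp only [ofLex_toLex]
    refine or_congr Iff.rfl (and_congr_right fun h => ?_)
    rw [← h]
    by_cases h1 : (ofLex x).1 = l
    · rw [if_pos h1, if_pos h1]; exact g.le_iff_le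
    · rw [if_neg h1, if_neg h1]

theorem ixIso_apply (l : Λ) (g : ℚ ≃o ℚ) (q : ℚ) :
    ixIso l g (toLex (l, q)) = toLex (l, g q) := by
  simp [ixIso]

theorem ixIso_fix (l : Λ) (g : ℚ ≃o ℚ) (x : Ix Λ) (h : (ofLex x).1 = l → g (ofLex x).2 = (ofLex x).2) :
    ixIso l g x = x := by
  apply ofLex.injective
  by_cases h1 : (ofLex x).1 = l
  · have h2 := h h1
    simp only [ixIso, RelIso.coe_fn_mk, Equiv.coe_fn_mk, ofLex_toLex, if_pos h1, h2]
  · simp only [ixIso, RelIso.coe_fn_mk, Equiv.coe_fn_mk, ofLex_toLex, if_neg h1]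

/-- the induced automorphism of the group -/
noncomputable def gpFun (s : Ix Λ ≃o Ix Λ) (g : Gp Λ) : Gp Λ :=
  toLex (Finsupp.equivMapDomain s.toEquiv (ofLex g))

theorem gpFun_apply (s : Ix Λ ≃o Ix Λ) (g : Gp Λ) (i : Ix Λ) :
    (ofLex (gpFun s g)) i = (ofLex g) (s.symm i) := rfl

theorem gpFun_e (s : Ix Λ ≃o Ix Λ) (i : Ix Λ) : gpFun s (e i) = e (s i) := by
  apply ofLex.injective
  ext j
  rw [gpFun_apply, e_apply, e_apply]
  refine if_congr ?_ rfl rfl
  rw [← s.symm_apply_apply i, s.symm.injective.eq_iff, s.symm_apply_apply]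

theorem gpFun_lt (s : Ix Λ ≃o Ix Λ) (g h : Gp Λ) : gpFun s g < gpFun s h ↔ g < h := by
  rw [Finsupp.Lex.lt_iff, Finsupp.Lex.lt_iff]
  constructor
  · rintro ⟨i, h1, h2⟩
    refine ⟨s.symm i, fun j hj => ?_, h2⟩
    have := h1 (s j) (by rwa [← s.symm.lt_iff_lt, s.symm_apply_apply])
    rwa [gpFun_apply, gpFun_apply, s.symm_apply_apply] at this
  · rintro ⟨i, h1, h2⟩
    refine ⟨s i, fun j hj => ?_, ?_⟩
    · rw [gpFun_apply, gpFun_apply]
      exact h1 _ (by rwa [← s.lt_iff_lt, s.apply_symm_apply])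
    · rw [gpFun_apply, gpFun_apply, s.symm_apply_apply]; exact h2

/-- the induced automorphism, as an equivalence of structures -/
noncomputable def gpEquiv (s : Ix Λ ≃o Ix Λ) : @Language.Equiv Log (Gp Λ) (Gp Λ) (grpStr (Gp Λ))
    (grpStr (Gp Λ)) := by
  let _ := grpStr (Gp Λ)
  exact
  { toFun := gpFun s
    invFun := gpFun s.symm
    left_inv := fun g => by
      apply ofLex.injective
      ext i
      rw [gpFun_apply, gpFun_apply]
      simp
    right_inv := fun g => by
      apply ofLex.injective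
      ext i
      rw [gpFun_apply, gpFun_apply]
      simp
    map_fun' := fun {n} f x => by
      cases f with
      | zero => rfl
      | neg => exact ofLex.injective (Finsupp.ext fun i => rfl)
      | add => exact ofLex.injective (Finsupp.ext fun i => rfl)
    map_rel' := fun {n} r x => by
      cases r with
      | lt => exact gpFun_lt s (x 0) (x 1) }

/-- the natural valuation -/
noncomputable def nv (a : (KT Λ)ˣ) : Gp Λ := (ofLex ((a : KT Λ) : HF Λ)).order

theorem coe_ne (a : (KT Λ)ˣ) : ((a : KT Λ) : HF Λ) ≠ 0 := by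
  intro h
  exact a.ne_zero (Subtype.ext h)

theorem nv_ot (a : (KT Λ)ˣ) : ((nv a : Gp Λ) : WithTop (Gp Λ)) = ot ((a : KT Λ) : HF Λ) :=
  order_eq_orderTop_of_ne_zero (coe_ne a)

theorem coe_abs (x : KT Λ) : ((|x| : KT Λ) : HF Λ) = |(x : HF Λ)| := by
  rcases le_total 0 x with h | h
  · rw [abs_of_nonneg h, abs_of_nonneg (show (0 : HF Λ) ≤ x from h)]
  · rw [abs_of_nonpos h, abs_of_nonpos (show (x : HF Λ) ≤ 0 from h)]; rfl

theorem nv_natural : IsNaturalValuation (nv (Λ := Λ)) where
  surj := by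
    intro g
    have h0 : mo g ≠ 0 := by
      intro h
      have h1 : ot (mon g) = ⊤ := ot_eq_top.2 (congrArg Subtype.val h)
      rw [ot_mon] at h1
      exact WithTop.coe_ne_top h1
    refine ⟨Units.mk0 (mo g) h0, ?_⟩
    have h1 := nv_ot (Units.mk0 (mo g) h0)
    have h2 : ot (((Units.mk0 (mo g) h0 : (KT Λ)ˣ) : KT Λ) : HF Λ) = g := ot_mon g
    rw [h2] at h1
    exact WithTop.coe_injective h1
  map_mul := by
    intro a b
    apply WithTop.coe_injective
    rw [WithTop.coe_add, nv_ot, nv_ot, nv_ot]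
    exact ot_mul _ _
  le_iff := by
    intro a b
    rw [← WithTop.coe_le_coe, nv_ot, nv_ot, ot_le_iff (coe_ne a) (coe_ne b)]
    refine exists_congr fun n => ?_
    rw [← coe_abs, ← coe_abs]
    exact Iff.rfl

theorem unitValues_eq (l : Λ) : unitValues nv (OO l) =
    {g : Gp Λ | ∃ n, -e (ix l n) ≤ g ∧ g ≤ e (ix l n)} := by
  ext g
  constructor
  · rintro ⟨a, ⟨n, hn⟩, ⟨m, hm⟩, rfl⟩
    rw [← nv_ot, WithTop.coe_le_coe] at hn
    rw [← nv_ot, WithTop.coe_le_coe] at hm
    have h1 : nv (a⁻¹ : (KT Λ)ˣ) = - nv a := by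
      have h2 := nv_natural.map_mul a a⁻¹
      have h3 := nv_natural.map_mul (1 : (KT Λ)ˣ) 1
      rw [mul_one] at h3
      rw [mul_inv_cancel] at h2
      have h4 : nv (1 : (KT Λ)ˣ) = 0 := left_eq_add.1 h3
      rw [h4] at h2
      exact (neg_eq_of_add_eq_zero_right h2.symm).symm
    rw [h1] at hm
    refine ⟨max n m, ?_, ?_⟩
    · exact le_trans (neg_le_neg ((e_ix_mono l).monotone (le_max_left _ _))) hn
    · exact le_trans (neg_le_neg_iff.1 hm) ((e_ix_mono l).monotone (le_max_right _ _))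
  · rintro ⟨n, h1, h2⟩
    obtain ⟨a, rfl⟩ := nv_natural.surj g
    refine ⟨a, ⟨n, ?_⟩, ⟨n, ?_⟩, rfl⟩
    · rw [← nv_ot, WithTop.coe_le_coe]; exact h1
    · have h3 : nv (a⁻¹ : (KT Λ)ˣ) = - nv a := by
        have h2 := nv_natural.map_mul a a⁻¹
        have h3 := nv_natural.map_mul (1 : (KT Λ)ˣ) 1
        rw [mul_one] at h3
        rw [mul_inv_cancel] at h2
        have h4 : nv (1 : (KT Λ)ˣ) = 0 := left_eq_add.1 h3
        rw [h4] at h2
        exact (neg_eq_of_add_eq_zero_right h2.symm).symm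
      rw [← nv_ot, WithTop.coe_le_coe, h3]
      exact neg_le_neg h2

theorem e_mem_iff (l : Λ) (q : ℚ) : e (toLex (l, q)) ∈
    {g : Gp Λ | ∃ n, -e (ix l n) ≤ g ∧ g ≤ e (ix l n)} ↔ ∃ n, r n ≤ q := by
  refine exists_congr fun n => ?_
  constructor
  · rintro ⟨_, h⟩
    by_contra hcon
    have h1 : (toLex (l, q) : Ix Λ) < ix l n := by
      rw [ix, Prod.Lex.toLex_lt_toLex]
      exact Or.inr ⟨rfl, not_le.1 hcon⟩
    exact absurd h (not_le.2 (e_lt h1))
  · intro h
    refine ⟨((neg_nonpos.2 (e_pos _).le).trans (e_pos _).le), ?_⟩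
    rcases h.eq_or_lt with h | h
    · rw [← h]; exact le_rfl
    · refine (e_lt ?_).le
      rw [ix, Prod.Lex.toLex_lt_toLex]
      exact Or.inr ⟨rfl, h⟩

theorem not_def (l : Λ) : ¬ DefG (unitValues nv (OO l)) := by
  classical
  rw [unitValues_eq]
  intro h
  let _ := grpStr (Gp Λ)
  unfold DefG Set.Definable₁ at h
  rw [Set.definable_iff_finitely_definable] at h
  obtain ⟨A, -, h⟩ := h
  rw [Set.definable_iff_exists_formula_sum] at h
  obtain ⟨φ, hφ⟩ := h
  -- the rationals to avoid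
  set Q : Finset ℚ := (A.biUnion fun g => (ofLex g).support).image fun i => (ofLex i).2 with hQ
  have hirr : Irrational (Real.sqrt 2) := irrational_sqrt_two
  have hε : ∃ ε : ℝ, 0 < ε ∧ ∀ q ∈ Q, ε ≤ |(q:ℝ) - Real.sqrt 2| := by
    have hpos : ∀ q : ℚ, 0 < |(q:ℝ) - Real.sqrt 2| := fun q =>
      abs_pos.2 (sub_ne_zero.2 (by intro h; exact hirr ⟨q, h⟩))
    rcases Q.eq_empty_or_nonempty with h | h
    · exact ⟨1, one_pos, by rw [h]; simp⟩
    · obtain ⟨q₀, _, hq₀⟩ := Q.exists_min_image (fun q => |(q:ℝ) - Real.sqrt 2|) h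
      exact ⟨_, hpos q₀, hq₀⟩
  obtain ⟨ε, hε0, hε⟩ := hε
  obtain ⟨a, ha1, ha2⟩ := exists_rat_btwn (show Real.sqrt 2 - ε < Real.sqrt 2 by linarith)
  obtain ⟨b, hb1, hb2⟩ := exists_rat_btwn (show Real.sqrt 2 < Real.sqrt 2 + ε by linarith)
  have hab : a < b := by exact_mod_cast ha2.trans hb1
  set s := ixIso l (shift hab) with hs
  have hfix : ∀ g ∈ A, gpFun s g = g := by
    intro g hg
    have h1 : ∀ i ∈ (ofLex g).support, s i = i := by
      intro i hi
      refine ixIso_fix l _ i fun _ => shift_fix hab ?_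
      have hq : (ofLex i).2 ∈ Q := Finset.mem_image_of_mem _ (Finset.mem_biUnion.2 ⟨g, hg, hi⟩)
      have h2 := hε _ hq
      rw [le_abs] at h2
      rcases h2 with h2 | h2
      · right
        have : (b:ℝ) ≤ (ofLex i).2 := by linarith
        exact_mod_cast this
      · left
        have : ((ofLex i).2 : ℝ) ≤ a := by linarith
        exact_mod_cast this
    apply ofLex.injective
    ext i
    rw [gpFun_apply]
    by_cases hi : i ∈ (ofLex g).support
    · have : s.symm i = i := by rw [OrderIso.symm_apply_eq]; exact (h1 i hi).symm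
      rw [this]
    · by_cases hj : s.symm i ∈ (ofLex g).support
      · have h2 := h1 _ hj
        rw [s.apply_symm_apply] at h2
        rw [← h2] at hj
        exact absurd hj hi
      · rw [Finsupp.notMem_support_iff.1 hi, Finsupp.notMem_support_iff.1 hj]
  have hinv : ∀ g : Gp Λ, g ∈ {g : Gp Λ | ∃ n, -e (ix l n) ≤ g ∧ g ≤ e (ix l n)} ↔
      gpFun s g ∈ {g : Gp Λ | ∃ n, -e (ix l n) ≤ g ∧ g ≤ e (ix l n)} := by
    intro g
    have h1 : ∀ g : Gp Λ, g ∈ {g : Gp Λ | ∃ n, -e (ix l n) ≤ g ∧ g ≤ e (ix l n)} ↔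
        φ.Realize (Sum.elim (↑) (fun _ : Fin 1 => g)) := by
      intro g
      have := Set.ext_iff.1 hφ (fun _ => g)
      exact this
    rw [h1, h1, ← StrongHomClass.realize_formula (gpEquiv s) φ]
    have h2 : (gpEquiv s ∘ Sum.elim (Subtype.val : ↥(A : Set (Gp Λ)) → Gp Λ)
        (fun _ : Fin 1 => g)) =
        Sum.elim (Subtype.val : ↥(A : Set (Gp Λ)) → Gp Λ) (fun _ : Fin 1 => gpFun s g) := by
      funext x
      rcases x with x | x
      · exact hfix x x.2
      · rfl
    rw [h2]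
  -- the point
  have hlt : Real.sqrt 2 < min (2 * Real.sqrt 2 - a) ((Real.sqrt 2 + b) / 2) :=
    lt_min (by linarith) (by linarith)
  obtain ⟨q, hq1, hq2⟩ := exists_rat_btwn hlt
  rw [lt_min_iff] at hq2
  have h1 := hinv (e (toLex (l, q)))
  rw [gpFun_e, hs, ixIso_apply, e_mem_iff, e_mem_iff] at h1
  have h2 : ∃ n, r n ≤ q := by
    have := (r_lim.eventually (gt_mem_nhds hq1)).exists
    obtain ⟨n, hn⟩ := this
    exact ⟨n, by exact_mod_cast hn.le⟩
  obtain ⟨n, hn⟩ := h1.1 h2
  have h3 := r_gt n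
  have h4 : (r n : ℝ) ≤ (shift hab q : ℚ) := by exact_mod_cast hn
  have h5 : ((shift hab q : ℚ) : ℝ) < Real.sqrt 2 := by
    rw [shift_apply, shiftFun]
    push_cast
    refine lt_of_le_of_lt (min_le_right _ _) (max_lt ?_ ?_)
    · linarith [hq2.1]
    · linarith [hq2.2]
  linarith

end Pool.Agent.R614.Rk
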