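import Pool.Agent.R614.Rk.Hahn
import Pool.Agent.R614.Rk.Defs
set_option autoImplicit false

/-!
# The convex valuation rings
-/

open HahnSeries Filter Topology FirstOrder FirstOrder.Language Set

namespace Pool.Agent.R614.Rk

universe u

variable {Λ : Type u} [LinearOrder Λ]

/-- the order of an element -/
noncomputable def ot (x : HF Λ) : WithTop (Gp Λ) := (ofLex x).orderTop

theorem ot_mul (x y : HF Λ) : ot (x * y) = ot x + ot y := orderTop_mul (ofLex x) (ofLex y)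

theorem ot_add (x y : HF Λ) : min (ot x) (ot y) ≤ ot (x + y) := min_orderTop_le_orderTop_add

theorem ot_neg (x : HF Λ) : ot (-x) = ot x := orderTop_neg

theorem ot_zero : ot (0 : HF Λ) = ⊤ := orderTop_zero

theorem ot_one : ot (1 : HF Λ) = 0 := orderTop_one

theorem ot_eq_top {x : HF Λ} : ot x = ⊤ ↔ x = 0 := orderTop_eq_top

theorem ot_mon (g : Gp Λ) : ot (mon g) = g := orderTop_single one_ne_zero

theorem ot_le_iff {x y : HF Λ} (hx : x ≠ 0) (hy : y ≠ 0) :
    ot x ≤ ot y ↔ ∃ n : ℕ, |y| ≤ n * |x| := by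
  have h1 : ArchimedeanClass.mk x ≤ ArchimedeanClass.mk y ↔ ∃ n : ℕ, |y| ≤ n * |x| := by
    rw [ArchimedeanClass.mk_le_mk]
    simp only [nsmul_eq_mul]
  rw [← h1, archimedeanClassMk_le_archimedeanClassMk_iff]
  have hlx : ArchimedeanClass.mk (ofLex x).leadingCoeff = 0 :=
    ArchimedeanClass.mk_eq_zero_of_archimedean (leadingCoeff_ne_zero.2 hx)
  have hly : ArchimedeanClass.mk (ofLex y).leadingCoeff = 0 :=
    ArchimedeanClass.mk_eq_zero_of_archimedean (leadingCoeff_ne_zero.2 hy)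
  rw [hlx, hly]
  simp only [le_refl, and_true]
  exact le_iff_lt_or_eq

theorem ot_le_of_abs_le {x y : HF Λ} (h : |y| ≤ |x|) : ot x ≤ ot y := by
  by_cases hy : y = 0
  · rw [hy, ot_zero]; exact le_top
  · have hx : x ≠ 0 := by
      rintro rfl
      rw [abs_zero] at h
      exact hy (abs_eq_zero.1 (le_antisymm h (abs_nonneg y)))
    exact (ot_le_iff hx hy).2 ⟨1, by simpa using h⟩

theorem abs_lt_of_ot_lt {x y : HF Λ} (h : ot x < ot y) : |y| < |x| := by
  by_contra hcon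
  exact absurd (ot_le_of_abs_le (not_lt.1 hcon)) (not_le.2 h)

variable (Λ) in
/-- the field -/
abbrev KT : Type u := ↥(KK Λ)

/-- the valuation rings -/
noncomputable def OO (l : Λ) : Subring (KT Λ) where
  carrier := {x | ∃ n, ((-e (ix l n) : Gp Λ) : WithTop (Gp Λ)) ≤ ot (x : HF Λ)}
  mul_mem' := by
    rintro x y ⟨n, hn⟩ ⟨m, hm⟩
    refine ⟨max n m + 1, ?_⟩
    show _ ≤ ot ((x : HF Λ) * (y : HF Λ))
    rw [ot_mul]
    refine le_trans ?_ (add_le_add hn hm)
    rw [← WithTop.coe_add, WithTop.coe_le_coe]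
    have h1 : e (ix l n) ≤ e (ix l (max n m)) := (e_ix_mono l).monotone (le_max_left _ _)
    have h2 : e (ix l m) ≤ e (ix l (max n m)) := (e_ix_mono l).monotone (le_max_right _ _)
    have h3 : 2 • e (ix l (max n m)) < e (ix l (max n m + 1)) :=
      nsmul_e_lt (ix_lt l (Nat.lt_succ_self _)) 2
    rw [two_nsmul] at h3
    have h4 : e (ix l n) + e (ix l m) ≤ e (ix l (max n m + 1)) :=
      (add_le_add h1 h2).trans h3.le
    rw [← neg_add]
    exact neg_le_neg h4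
  one_mem' := ⟨0, by
    show _ ≤ ot (1 : HF Λ)
    rw [ot_one, ← WithTop.coe_zero, WithTop.coe_le_coe]
    exact neg_nonpos.2 (e_pos _).le⟩
  add_mem' := by
    rintro x y ⟨n, hn⟩ ⟨m, hm⟩
    refine ⟨max n m, le_trans (le_min ?_ ?_) (ot_add (x : HF Λ) (y : HF Λ))⟩
    · refine le_trans ?_ hn
      rw [WithTop.coe_le_coe]
      exact neg_le_neg ((e_ix_mono l).monotone (le_max_left _ _))
    · refine le_trans ?_ hm
      rw [WithTop.coe_le_coe]
      exact neg_le_neg ((e_ix_mono l).monotone (le_max_right _ _))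
  zero_mem' := ⟨0, by
    show _ ≤ ot (0 : HF Λ)
    rw [ot_zero]; exact le_top⟩
  neg_mem' := by
    rintro x ⟨n, hn⟩
    refine ⟨n, ?_⟩
    show _ ≤ ot (-(x : HF Λ))
    rw [ot_neg]; exact hn

theorem mem_OO (l : Λ) (x : KT Λ) :
    x ∈ OO l ↔ ∃ n, ((-e (ix l n) : Gp Λ) : WithTop (Gp Λ)) ≤ ot (x : HF Λ) := Iff.rfl

/-- monomials in the field -/
noncomputable def mo (g : Gp Λ) : KT Λ := ⟨mon g, K'_le (mon_mem g)⟩

theorem mem_OO_mo (l : Λ) (g : Gp Λ) : mo g ∈ OO l ↔ ∃ n, -e (ix l n) ≤ g := by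
  rw [mem_OO]
  refine exists_congr fun n => ?_
  show _ ≤ ot (mon g) ↔ _
  rw [ot_mon, WithTop.coe_le_coe]

theorem OO_convex (l : Λ) : IsConvexValuationRing (OO l) where
  val := by
    intro x
    by_cases hx : (x : HF Λ) = 0
    · left
      have : x = 0 := Subtype.ext hx
      rw [this]; exact zero_mem _
    · rcases le_total 0 (ot (x : HF Λ)) with h | h
      · left
        refine ⟨0, le_trans ?_ h⟩
        rw [← WithTop.coe_zero, WithTop.coe_le_coe]
        exact neg_nonpos.2 (e_pos _).le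
      · right
        refine ⟨0, ?_⟩
        have h1 : ot (x : HF Λ) + ot ((x⁻¹ : KT Λ) : HF Λ) = 0 := by
          rw [← ot_mul, Subfield.coe_inv, mul_inv_cancel₀ hx, ot_one]
        refine le_trans (b := 0) ?_ ?_
        · rw [← WithTop.coe_zero, WithTop.coe_le_coe]
          exact neg_nonpos.2 (e_pos _).le
        · rw [← h1]
          exact add_le_of_nonpos_left h
  convex := by
    constructor
    intro x hx y hy z hz
    obtain ⟨n, hn⟩ := hx
    obtain ⟨m, hm⟩ := hy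
    have h1 : |(z : HF Λ)| ≤ max |(x : HF Λ)| |(y : HF Λ)| := by
      have hz1 : (x : HF Λ) ≤ z := hz.1
      have hz2 : (z : HF Λ) ≤ y := hz.2
      rw [abs_le]
      constructor
      · have := neg_abs_le (x : HF Λ)
        have := le_max_left |(x : HF Λ)| |(y : HF Λ)|
        linarith
      · have := le_abs_self (y : HF Λ)
        have := le_max_right |(x : HF Λ)| |(y : HF Λ)|
        linarith
    rcases le_max_iff.1 h1 with h | h
    · exact ⟨n, hn.trans (ot_le_of_abs_le h)⟩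
    · exact ⟨m, hm.trans (ot_le_of_abs_le h)⟩
  ne_top := by
    intro h
    have h1 : mo (-e (toLex (l, 0))) ∈ OO l := by rw [h]; trivial
    rw [mem_OO_mo] at h1
    obtain ⟨n, hn⟩ := h1
    have h2 : (toLex (l, 0) : Ix Λ) < ix l n := by
      rw [ix, Prod.Lex.toLex_lt_toLex]
      refine Or.inr ⟨rfl, ?_⟩
      have h3 := r_gt n
      have h4 : 0 ≤ Real.sqrt 2 := Real.sqrt_nonneg 2
      exact_mod_cast lt_of_le_of_lt h4 h3
    exact absurd (neg_le_neg_iff.1 hn) (not_le.2 (e_lt h2))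

theorem OO_inj : Function.Injective (OO (Λ := Λ)) := by
  have key : ∀ l m : Λ, l < m → OO l ≠ OO m := by
    intro l m hlm h
    have h1 : mo (-e (toLex (m, 0))) ∈ OO l := by
      rw [mem_OO_mo]
      refine ⟨0, neg_le_neg (e_lt ?_).le⟩
      rw [ix, Prod.Lex.toLex_lt_toLex]
      exact Or.inl hlm
    rw [h, mem_OO_mo] at h1
    obtain ⟨n, hn⟩ := h1
    have h2 : (toLex (m, 0) : Ix Λ) < ix m n := by
      rw [ix, Prod.Lex.toLex_lt_toLex]
      refine Or.inr ⟨rfl, ?_⟩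
      have h3 := r_gt n
      have h4 : 0 ≤ Real.sqrt 2 := Real.sqrt_nonneg 2
      exact_mod_cast lt_of_le_of_lt h4 h3
    exact absurd (neg_le_neg_iff.1 hn) (not_le.2 (e_lt h2))
  intro l m h
  rcases lt_trichotomy l m with hlm | hlm | hlm
  · exact absurd h (key l m hlm)
  · exact hlm
  · exact absurd h.symm (key m l hlm)

/-! ### definability -/

open Classical in
/-- partial sums of the generic elements -/
noncomputable def aa (l : Λ) (n : ℕ) : HF Λ :=
  toLex ⟨fun g => if ∃ m ≤ n, g = e (ix l m) then 1 else 0, by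
    have h1 : ((fun n => e (ix l n)) '' Set.Iic n).IsPWO :=
      (Set.isPWO_of_wellQuasiOrderedLE _).image_of_monotone (e_ix_mono l).monotone
    refine h1.mono fun g hg => ?_
    simp only [Function.mem_support, ne_eq, ite_eq_right_iff, not_forall] at hg
    obtain ⟨⟨m, hm, hmn⟩, -⟩ := hg
    exact ⟨m, hm, hmn.symm⟩⟩

open Classical in
theorem aa_coeff (l : Λ) (n : ℕ) (g : Gp Λ) :
    (ofLex (aa l n)).coeff g = if ∃ m ≤ n, g = e (ix l m) then 1 else 0 := rfl

theorem aa_mem (l : Λ) (n : ℕ) : aa l n ∈ K' Λ := by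
  classical
  refine ⟨(Finset.range (n + 1)).image (ix l), fun i hi => ?_⟩
  apply ofLex.injective
  ext g
  rw [Dv_coeff, aa_coeff]
  split_ifs with h1
  · obtain ⟨k, hk, rfl⟩ := h1
    rw [e_apply, if_neg]
    · simp
    · rintro rfl
      exact hi (Finset.mem_image_of_mem _ (Finset.mem_range.2 (Nat.lt_succ_of_le hk)))
  · simp

theorem ot_bb_sub_aa (l : Λ) (n : ℕ) : ((e (ix l (n + 1)) : Gp Λ) : WithTop (Gp Λ)) ≤
    ot (bb l - aa l n) := by
  unfold ot
  rw [le_orderTop_iff_forall]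
  intro g hg
  rw [WithTop.coe_lt_coe] at hg
  rw [ofLex_sub, coeff_sub, bb_coeff, aa_coeff]
  by_cases h : ∃ k, g = e (ix l k)
  · obtain ⟨k, rfl⟩ := h
    have hk : k < n + 1 := (e_ix_mono l).lt_iff_lt.1 hg
    rw [if_pos ⟨k, rfl⟩, if_pos ⟨k, by omega, rfl⟩, sub_self]
  · rw [if_neg h, if_neg, sub_zero]
    rintro ⟨m, _, hm⟩
    exact h ⟨m, hm⟩

theorem ot_bb_sub_le (l : Λ) {a : HF Λ} (ha : a ∈ K' Λ) : ∃ n,
    ot (bb l - a) ≤ ((e (ix l n) : Gp Λ) : WithTop (Gp Λ)) := by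
  obtain ⟨N, hN⟩ := Dv_K' l ha
  refine ⟨N, orderTop_le_of_coeff_ne_zero ?_⟩
  rw [ofLex_sub, coeff_sub, bb_coeff, if_pos ⟨N, rfl⟩]
  have h1 : (ofLex (Dv (ix l N) a)).coeff (e (ix l N)) = 0 := by rw [hN N le_rfl]; rfl
  rw [Dv_coeff, e_apply, if_pos rfl] at h1
  have h2 : (ofLex a).coeff (e (ix l N)) = 0 := by simpa using h1
  rw [h2]; norm_num

/-- `x ∈ O` in terms of approximations of the generic element -/
theorem mem_OO_iff (l : Λ) (x : KT Λ) : x ∈ OO l ↔ ∃ a : KT Λ, (a : HF Λ) ∈ K' Λ ∧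
    x * x * ((⟨bb l, bb_mem l⟩ - a) * (⟨bb l, bb_mem l⟩ - a)) ≤ 1 := by
  have hiff : ∀ a : KT Λ, x * x * ((⟨bb l, bb_mem l⟩ - a) * (⟨bb l, bb_mem l⟩ - a)) ≤ 1 ↔
      |(x : HF Λ) * (bb l - a)| ≤ |(1 : HF Λ)| := by
    intro a
    rw [abs_le_iff_mul_self_le]
    have h1 : (x * x * ((⟨bb l, bb_mem l⟩ - a) * (⟨bb l, bb_mem l⟩ - a)) ≤ 1) ↔
        (x : HF Λ) * x * ((bb l - a) * (bb l - a)) ≤ 1 := Iff.rfl
    rw [h1]
    have h2 : (x : HF Λ) * x * ((bb l - a) * (bb l - a)) =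
      (x : HF Λ) * (bb l - a) * ((x : HF Λ) * (bb l - a)) := by ring
    rw [h2, one_mul]
  constructor
  · rintro ⟨n, hn⟩
    refine ⟨⟨aa l n, K'_le (aa_mem l n)⟩, aa_mem l n, (hiff _).2 ?_⟩
    refine (abs_lt_of_ot_lt ?_).le
    rw [ot_one, ot_mul]
    have h1 := add_le_add hn (ot_bb_sub_aa l n)
    refine lt_of_lt_of_le ?_ h1
    rw [← WithTop.coe_add, ← WithTop.coe_zero, WithTop.coe_lt_coe]
    have h2 := e_ix_mono l (Nat.lt_succ_self n)
    rw [neg_add_eq_sub]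
    exact sub_pos.2 h2
  · rintro ⟨a, ha, h⟩
    rw [hiff] at h
    have h1 := ot_le_of_abs_le h
    rw [ot_one, ot_mul] at h1
    obtain ⟨n, hn⟩ := ot_bb_sub_le l ha
    refine ⟨n, ?_⟩
    have h2 : (0 : WithTop (Gp Λ)) ≤ ot (x : HF Λ) + ((e (ix l n) : Gp Λ) : WithTop (Gp Λ)) :=
      h1.trans (add_le_add le_rfl hn)
    cases hx : ot (x : HF Λ) with
    | top => exact le_top
    | coe g =>
      rw [hx, ← WithTop.coe_add, ← WithTop.coe_zero, WithTop.coe_le_coe] at h2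
      rw [WithTop.coe_le_coe]
      exact neg_le_iff_add_nonneg.2 h2

/-! the formula -/

section formula

variable {β : Type u} {n : ℕ}

/-- product -/
def tmul (s t : Lor.Term (β ⊕ Fin n)) : Lor.Term (β ⊕ Fin n) :=
  Term.func (OFun.mul : Lor.Functions 2) ![s, t]
/-- sum -/
def tadd (s t : Lor.Term (β ⊕ Fin n)) : Lor.Term (β ⊕ Fin n) :=
  Term.func (OFun.add : Lor.Functions 2) ![s, t]
/-- negative -/
def tneg (s : Lor.Term (β ⊕ Fin n)) : Lor.Term (β ⊕ Fin n) :=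
  Term.func (OFun.neg : Lor.Functions 1) ![s]
/-- one -/
def tone : Lor.Term (β ⊕ Fin n) := Term.func (OFun.one : Lor.Functions 0) ![]
/-- less than -/
def flt (s t : Lor.Term (β ⊕ Fin n)) : Lor.BoundedFormula β n :=
  Relations.boundedFormula₂ (LRel.lt : Lor.Relations 2) s t

variable {K : Type u} [Field K] [LinearOrder K] (w : β ⊕ Fin n → K)

theorem r_mul (s t : Lor.Term (β ⊕ Fin n)) : @Term.realize _ K (ringStr K) _ w (tmul s t) =
    @Term.realize _ K (ringStr K) _ w s * @Term.realize _ K (ringStr K) _ w t := rfl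
theorem r_add (s t : Lor.Term (β ⊕ Fin n)) : @Term.realize _ K (ringStr K) _ w (tadd s t) =
    @Term.realize _ K (ringStr K) _ w s + @Term.realize _ K (ringStr K) _ w t := rfl
theorem r_neg (s : Lor.Term (β ⊕ Fin n)) : @Term.realize _ K (ringStr K) _ w (tneg s) =
    - @Term.realize _ K (ringStr K) _ w s := rfl
theorem r_lt (s t : Lor.Term (β ⊕ Fin n)) (v : β → K) (xs : Fin n → K) :
    @BoundedFormula.Realize _ K (ringStr K) _ _ (flt s t) v xs ↔
      @Term.realize _ K (ringStr K) _ (Sum.elim v xs) s <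
        @Term.realize _ K (ringStr K) _ (Sum.elim v xs) t := Iff.rfl
theorem r_one : @Term.realize _ K (ringStr K) _ w tone = 1 := rfl

end formula

theorem OO_def (l : Λ) : DefK (OO l : Set (KT Λ)) := by
  let _ := ringStr (KT Λ)
  unfold DefK Set.Definable₁
  rw [Set.definable_iff_exists_formula_sum]
  -- variables: `inl (inl b)`, `inl (inr 0)`, `inr 0 = a`, `inr 1 = y`
  let b : (Set.univ : Set (KT Λ)) := ⟨⟨bb l, bb_mem l⟩, trivial⟩
  let vb : Lor.Term (((Set.univ : Set (KT Λ)) ⊕ Fin 1) ⊕ Fin 2) := Term.var (Sum.inl (Sum.inl b))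
  let vx : Lor.Term (((Set.univ : Set (KT Λ)) ⊕ Fin 1) ⊕ Fin 2) := Term.var (Sum.inl (Sum.inr 0))
  let va : Lor.Term (((Set.univ : Set (KT Λ)) ⊕ Fin 1) ⊕ Fin 2) := Term.var (Sum.inr 0)
  let vy : Lor.Term (((Set.univ : Set (KT Λ)) ⊕ Fin 1) ⊕ Fin 2) := Term.var (Sum.inr 1)
  let vd := tadd vb (tneg va)
  let φ : Lor.Formula ((Set.univ : Set (KT Λ)) ⊕ Fin 1) :=
    ((Term.bdEqual (tmul vy vy) (tadd tone (tmul (tmul va va) (tmul va va))) ⊓
      ∼(flt tone (tmul (tmul vx vx) (tmul vd vd))) : Lor.BoundedFormula _ 2)).ex.ex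
  refine ⟨φ, ?_⟩
  ext x
  have hx : x ∈ {x : Fin 1 → KT Λ | x 0 ∈ (OO l : Set (KT Λ))} ↔ x 0 ∈ OO l := Iff.rfl
  rw [hx, mem_OO_iff]
  show _ ↔ BoundedFormula.Realize φ _ default
  simp only [φ, BoundedFormula.realize_ex, BoundedFormula.realize_inf, BoundedFormula.realize_not,
    BoundedFormula.realize_bdEqual]
  refine exists_congr fun a => ?_
  have h1 : ∀ y : KT Λ, ((flt tone (tmul (tmul vx vx) (tmul vd vd)) :
      Lor.BoundedFormula ((Set.univ : Set (KT Λ)) ⊕ Fin 1) 2).Realize (Sum.elim (↑) x)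
      (Fin.snoc (Fin.snoc default a) y)) ↔
      1 < x 0 * x 0 * ((⟨bb l, bb_mem l⟩ + -a) * (⟨bb l, bb_mem l⟩ + -a)) := by
    intro y
    exact r_lt _ _ _ _
  simp only [h1]
  have h2 : ∀ y : KT Λ, (Term.realize (Sum.elim (Sum.elim (↑) x) (Fin.snoc (Fin.snoc default a) y))
      (tmul vy vy) = Term.realize (Sum.elim (Sum.elim (↑) x) (Fin.snoc (Fin.snoc default a) y))
      (tadd tone (tmul (tmul va va) (tmul va va)))) ↔ y * y = 1 + a * a * (a * a) := by
    intro y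
    exact Iff.rfl
  simp only [h2]
  rw [exists_and_right, K'_def _ a.2, not_lt, ← sub_eq_add_neg]
  refine and_congr ?_ Iff.rfl
  constructor
  · rintro ⟨y, hy, h⟩
    refine ⟨⟨y, hy⟩, Subtype.ext ?_⟩
    show y * y = 1 + (a : HF Λ) * a * (a * a)
    rw [← pow_two, h]; ring
  · rintro ⟨y, h⟩
    refine ⟨y, y.2, ?_⟩
    have h3 : (y : HF Λ) * y = 1 + (a : HF Λ) * a * (a * a) := congrArg Subtype.val h
    rw [pow_two, h3]; ring

end Pool.Agent.R614.Rk
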